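import Pool.Agent.H21.CL.POS2

set_option autoImplicit false

/-! Project CL of helper444: the Jensen formula for the logarithmic derivative on the critical line
(helper21). -/

namespace Pool.Agent.H21.CL

open Filter Topology MeasureTheory Complex Set
open scoped ComplexConjugate Interval
open H370 Pool.Agent.H444.CL

noncomputable section

lemma st_im (ρ : ℂ) : (st ρ).im = ρ.im := by
  unfold st
  split_ifs with h
  · simp only [sub_im, one_im, conj_im]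
    ring
  · rfl

lemma an_Ht {F : ℂ → ℂ} {T : ℝ} {Q : ℂ → ℂ} (hQ : Fact F T Q) {s : ℂ} (h0 : 0 < s.re)
    (h1 : T / 2 < s.im) (h2 : s.im < 4 * T) (hne : ∀ ρ ∈ ZT F T, s ≠ st ρ) :
    AnalyticAt ℂ (Ht F T Q) s := by
  have h : Ht F T Q = fun z => 1 + ((2 / Real.log T : ℝ) : ℂ) *
      (∑ ρ ∈ ZT F T, (mult F ρ : ℂ) / (z - st ρ) + Q z) := rfl
  rw [h]
  refine analyticAt_const.add (analyticAt_const.mul (AnalyticAt.add ?_ (hQ.1 s h0 h1 h2)))
  refine Finset.analyticAt_fun_sum _ fun ρ hρ => ?_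
  exact analyticAt_const.div (analyticAt_id.sub analyticAt_const) (sub_ne_zero.2 (hne ρ hρ))

lemma an_right {F : ℂ → ℂ} {T : ℝ} {Q : ℂ → ℂ} (hQ : Fact F T Q) {s : ℂ} (h0 : 1 / 2 < s.re)
    (h1 : T / 2 < s.im) (h2 : s.im < 4 * T) : AnalyticAt ℂ (Ht F T Q) s := by
  refine an_Ht hQ (by linarith) h1 h2 fun ρ _ h => ?_
  have := st_re ρ
  rw [← h] at this
  linarith

lemma an_line {F : ℂ → ℂ} {T : ℝ} {Q : ℂ → ℂ} (hQ : Fact F T Q)
    {y : ℝ} (h1 : T / 2 < y) (h2 : y < 4 * T) (hne : ∀ ρ ∈ ZT F T, y ≠ ρ.im) :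
    AnalyticAt ℂ (Ht F T Q) ⟨1 / 2, y⟩ := by
  refine an_Ht hQ (by norm_num) h1 h2 fun ρ hρ h => ?_
  apply hne ρ hρ
  rw [← st_im ρ, ← h]

/-- logarithms of numbers `≥ 1/2` -/
lemma log_lip {a b : ℝ} (ha : 1 / 2 ≤ a) (hb : 1 / 2 ≤ b) :
    |Real.log a - Real.log b| ≤ 2 * |a - b| := by
  have key : ∀ x y : ℝ, 1 / 2 ≤ x → 1 / 2 ≤ y → Real.log x - Real.log y ≤ 2 * |x - y| := by
    intro x y hx hy
    have hy0 : 0 < y := by linarith
    have hx0 : 0 < x := by linarith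
    rw [← Real.log_div hx0.ne' hy0.ne']
    have h1 := Real.log_le_sub_one_of_pos (div_pos hx0 hy0)
    have h2 : x / y - 1 = (x - y) / y := by field_simp
    rw [h2] at h1
    refine h1.trans ?_
    rw [div_le_iff₀ hy0]
    have h3 : x - y ≤ |x - y| := le_abs_self _
    have h4 : 0 ≤ |x - y| := abs_nonneg _
    nlinarith
  rw [abs_le]
  constructor
  · have := key b a hb ha
    rw [abs_sub_comm] at this
    linarith
  · exact key a b ha hb

/-- the bound near the poles -/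
lemma log_bd {F : ℂ → ℂ} {T : ℝ} {Q : ℂ → ℂ} (hT : 2 ≤ T) (hQ : Fact F T Q) :
    ∃ K : ℝ, ∀ x y : ℝ, 1 / 2 ≤ x → x ≤ 2 → T ≤ y → y ≤ 2 * T →
      (∀ ρ ∈ ZT F T, y ≠ ρ.im) → 1 / 2 ≤ ‖1 + Ht F T Q ⟨x, y⟩‖ →
      |Real.log ‖1 + Ht F T Q ⟨x, y⟩‖| ≤ K + ∑ ρ ∈ ZT F T, |Real.log (y - ρ.im)| := by
  have hcomp : IsCompact (Icc (1 / 2 : ℝ) 2 ×ℂ Icc T (2 * T)) := isCompact_Icc.reProdIm isCompact_Icc
  have hcont : ContinuousOn Q (Icc (1 / 2 : ℝ) 2 ×ℂ Icc T (2 * T)) := by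
    intro s hs
    have h1 : 1 / 2 ≤ s.re := hs.1.1
    have h2 : T ≤ s.im := hs.2.1
    have h3 : s.im ≤ 2 * T := hs.2.2
    exact (hQ.1 s (by linarith) (by linarith) (by linarith)).continuousAt.continuousWithinAt
  obtain ⟨M, hM⟩ := hcomp.exists_bound_of_continuousOn hcont
  set c : ℝ := 2 / Real.log T with hc
  have hc0 : 0 < c := by
    have : 0 < Real.log T := Real.log_pos (by linarith)
    positivity
  have hM0 : 0 ≤ M := by
    refine (norm_nonneg (Q ⟨1 / 2, T⟩)).trans (hM _ ⟨⟨le_rfl, by norm_num⟩, ⟨le_rfl, ?_⟩⟩)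
    change T ≤ 2 * T
    linarith
  set A : ℝ := 2 + c * M + c * ∑ ρ ∈ ZT F T, (mult F ρ : ℝ) with hA
  have hS0 : 0 ≤ ∑ ρ ∈ ZT F T, (mult F ρ : ℝ) := Finset.sum_nonneg fun _ _ => by positivity
  have hA0 : 0 < A := by positivity
  refine ⟨|Real.log A| + 1, ?_⟩
  intro x y hx1 hx2 hy1 hy2 hne hg
  set g := 1 + Ht F T Q ⟨x, y⟩ with hgdef
  set E := ∑ ρ ∈ ZT F T, |Real.log (y - ρ.im)| with hE
  have hE0 : 0 ≤ E := Finset.sum_nonneg fun _ _ => abs_nonneg _
  have hP1 : 1 ≤ Real.exp E := Real.one_le_exp hE0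
  have hterm : ∀ ρ ∈ ZT F T, ‖(mult F ρ : ℂ) / ((⟨x, y⟩ : ℂ) - st ρ)‖ ≤
      (mult F ρ : ℝ) * Real.exp E := by
    intro ρ hρ
    have hne' : y - ρ.im ≠ 0 := sub_ne_zero.2 (hne ρ hρ)
    have h1 : |y - ρ.im| ≤ ‖(⟨x, y⟩ : ℂ) - st ρ‖ := by
      have := Complex.abs_im_le_norm ((⟨x, y⟩ : ℂ) - st ρ)
      rw [sub_im, st_im] at this
      exact this
    have h2 : 0 < |y - ρ.im| := abs_pos.2 hne'
    have h3 : |Real.log (y - ρ.im)| ≤ E :=
      Finset.single_le_sum (f := fun ρ : ℂ => |Real.log (y - ρ.im)|)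
        (fun _ _ => abs_nonneg _) hρ
    have h4 : 1 / |y - ρ.im| ≤ Real.exp E := by
      have h5 : 1 / |y - ρ.im| = Real.exp (-Real.log (y - ρ.im)) := by
        rw [← Real.log_abs, Real.exp_neg, Real.exp_log h2, one_div]
      rw [h5]
      exact Real.exp_le_exp.2 ((neg_le_abs _).trans h3)
    rw [norm_div, Complex.norm_natCast, div_eq_mul_one_div]
    refine mul_le_mul_of_nonneg_left (le_trans ?_ h4) (by positivity)
    exact one_div_le_one_div_of_le h2 h1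
  have hgle : ‖g‖ ≤ A * Real.exp E := by
    have h1 : g = 2 + (c : ℂ) * Q ⟨x, y⟩ +
        (c : ℂ) * ∑ ρ ∈ ZT F T, (mult F ρ : ℂ) / ((⟨x, y⟩ : ℂ) - st ρ) := by
      rw [hgdef, Ht, Kt]
      ring
    rw [h1]
    have hcn : ‖(c : ℂ)‖ = c := by
      rw [Complex.norm_real, Real.norm_eq_abs, abs_of_pos hc0]
    have h2 : ‖(c : ℂ) * Q ⟨x, y⟩‖ ≤ c * M := by
      rw [norm_mul, hcn]
      exact mul_le_mul_of_nonneg_left (hM _ ⟨⟨hx1, hx2⟩, ⟨hy1, hy2⟩⟩) hc0.le
    have h3 : ‖(c : ℂ) * ∑ ρ ∈ ZT F T, (mult F ρ : ℂ) / ((⟨x, y⟩ : ℂ) - st ρ)‖ ≤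
        c * ((∑ ρ ∈ ZT F T, (mult F ρ : ℝ)) * Real.exp E) := by
      rw [norm_mul, hcn]
      refine mul_le_mul_of_nonneg_left ?_ hc0.le
      refine (norm_sum_le _ _).trans ?_
      rw [Finset.sum_mul]
      exact Finset.sum_le_sum hterm
    have h4 : ‖(2 : ℂ)‖ = 2 := by simp
    calc _ ≤ ‖(2 : ℂ)‖ + ‖(c : ℂ) * Q ⟨x, y⟩‖ +
          ‖(c : ℂ) * ∑ ρ ∈ ZT F T, (mult F ρ : ℂ) / ((⟨x, y⟩ : ℂ) - st ρ)‖ := norm_add₃_le
      _ ≤ 2 + c * M + c * ((∑ ρ ∈ ZT F T, (mult F ρ : ℝ)) * Real.exp E) := by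
          rw [h4]
          linarith
      _ ≤ (2 + c * M) * Real.exp E + c * ((∑ ρ ∈ ZT F T, (mult F ρ : ℝ)) * Real.exp E) := by
          have : 0 ≤ 2 + c * M := by positivity
          nlinarith
      _ = A * Real.exp E := by rw [hA]; ring
  have hg0 : 0 < ‖g‖ := by linarith
  have h5 : Real.log ‖g‖ ≤ Real.log A + E := by
    have := Real.log_le_log hg0 hgle
    rwa [Real.log_mul hA0.ne' (Real.exp_pos _).ne', Real.log_exp] at this
  have h6 : -1 ≤ Real.log ‖g‖ := by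
    have h7 := Real.log_le_log (by norm_num) hg
    have h8 : -1 ≤ Real.log (1 / 2) := by
      rw [one_div, Real.log_inv]
      have := Real.log_two_lt_d9
      linarith
    linarith
  rw [abs_le]
  constructor
  · have := abs_nonneg (Real.log A)
    linarith
  · have := le_abs_self (Real.log A)
    linarith

/-- integrability of the bound -/
lemma bd_int (F : ℂ → ℂ) (T K : ℝ) :
    IntervalIntegrable (fun y : ℝ => K + ∑ ρ ∈ ZT F T, |Real.log (y - ρ.im)|) volume T (2 * T) := by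
  refine (intervalIntegrable_const).add ?_
  have h := IntervalIntegrable.sum (ZT F T) (f := fun ρ y => |Real.log (y - ρ.im)|)
    (μ := volume) (a := T) (b := 2 * T) (fun ρ _ => by
      have h1 : IntervalIntegrable Real.log volume (T - ρ.im) (2 * T - ρ.im) :=
        intervalIntegral.intervalIntegrable_log'
      have h2 := h1.comp_sub_right ρ.im
      rw [sub_add_cancel, sub_add_cancel] at h2
      exact h2.abs)
  refine h.congr_ae ?_
  refine Filter.Eventually.of_forall fun y => ?_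
  simp only [Finset.sum_apply]

/-- vertical and horizontal segments in the domain -/
lemma cont_pt (x : ℝ) : Continuous fun y : ℝ => (⟨x, y⟩ : ℂ) := by
  have : (fun y : ℝ => (⟨x, y⟩ : ℂ)) = fun y : ℝ => (x : ℂ) + (y : ℂ) * I := by
    funext y
    exact Complex.mk_eq_add_mul_I x y
  rw [this]
  fun_prop

lemma cont_pt' (y : ℝ) : Continuous fun x : ℝ => (⟨x, y⟩ : ℂ) := by
  have : (fun x : ℝ => (⟨x, y⟩ : ℂ)) = fun x : ℝ => (x : ℂ) + (y : ℂ) * I := by
    funext x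
    exact Complex.mk_eq_add_mul_I x y
  rw [this]
  fun_prop

/-- Cauchy's theorem for the logarithm, real parts -/
lemma cauchy_T {F : ℂ → ℂ} {T : ℝ} {Q : ℂ → ℂ} (hT : 2 ≤ T) (hQ : Fact F T Q)
    (hpos : ∀ s : ℂ, 1 / 2 < s.re → s.re ≤ 2 → T ≤ s.im → s.im ≤ 2 * T →
      1 / 2 ≤ (1 + Ht F T Q s).re)
    {e : ℝ} (he : 0 < e) (he1 : e ≤ 1) :
    |(∫ y in T..(2 * T), Real.log ‖1 + Ht F T Q ⟨1 / 2 + e, y⟩‖) -
      ∫ y in T..(2 * T), Real.log ‖1 + Ht F T Q ⟨2, y⟩‖| ≤ 3 * Real.pi / 2 := by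
  set f : ℂ → ℂ := fun s => Complex.log (1 + Ht F T Q s) with hf
  have hd : DifferentiableOn ℂ f ([[1 / 2 + e, 2]] ×ℂ [[T, 2 * T]]) := by
    rw [uIcc_of_le (by linarith), uIcc_of_le (by linarith)]
    intro s hs
    have h1 : 1 / 2 + e ≤ s.re := hs.1.1
    have h2 : s.re ≤ 2 := hs.1.2
    have h3 : T ≤ s.im := hs.2.1
    have h4 : s.im ≤ 2 * T := hs.2.2
    have han := an_right hQ (s := s) (by linarith) (by linarith) (by linarith)
    have hre := hpos s (by linarith) h2 h3 h4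
    have hsl : 1 + Ht F T Q s ∈ slitPlane := Or.inl (by linarith)
    exact (((differentiableAt_const _).add han.differentiableAt).clog hsl).differentiableWithinAt
  have hcont := hd.continuousOn
  have hC : (∫ x : ℝ in (1 / 2 + e)..2, f (x + (T : ℝ) * I)) -
      (∫ x : ℝ in (1 / 2 + e)..2, f (x + ((2 * T : ℝ) : ℂ) * I)) +
      I • (∫ y : ℝ in T..(2 * T), f (((2 : ℝ) : ℂ) + y * I)) -
      I • (∫ y : ℝ in T..(2 * T), f (((1 / 2 + e : ℝ) : ℂ) + y * I)) = 0 :=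
    Complex.integral_boundary_rect_eq_zero_of_differentiableOn f ⟨1 / 2 + e, T⟩ ⟨2, 2 * T⟩ hd
  have hv : ∀ x : ℝ, 1 / 2 + e ≤ x → x ≤ 2 →
      (∫ y : ℝ in T..(2 * T), f ((x : ℂ) + y * I)).re =
        ∫ y in T..(2 * T), Real.log ‖1 + Ht F T Q ⟨x, y⟩‖ := by
    intro x hx1 hx2
    have hi : IntervalIntegrable (fun y : ℝ => f ((x : ℂ) + y * I)) volume T (2 * T) := by
      apply ContinuousOn.intervalIntegrable
      refine hcont.comp (Continuous.continuousOn (by fun_prop)) ?_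
      intro y hy
      change (x : ℂ) + (y : ℂ) * I ∈ _
      rw [← Complex.mk_eq_add_mul_I]
      exact ⟨by rw [uIcc_of_le (by linarith)]; exact ⟨hx1, hx2⟩, hy⟩
    have h1 := Complex.reCLM.intervalIntegral_comp_comm hi
    rw [Complex.reCLM_apply] at h1
    rw [← h1]
    refine intervalIntegral.integral_congr fun y _ => ?_
    simp only [Complex.reCLM_apply, hf, Complex.log_re, ← Complex.mk_eq_add_mul_I]
  have hh : ∀ y : ℝ, T ≤ y → y ≤ 2 * T →
      |(∫ x : ℝ in (1 / 2 + e)..2, f (x + (y : ℂ) * I)).im| ≤ Real.pi / 2 * (3 / 2) := by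
    intro y hy1 hy2
    have hi : IntervalIntegrable (fun x : ℝ => f ((x : ℂ) + y * I)) volume (1 / 2 + e) 2 := by
      apply ContinuousOn.intervalIntegrable
      refine hcont.comp (Continuous.continuousOn (by fun_prop)) ?_
      intro x hx
      change (x : ℂ) + (y : ℂ) * I ∈ _
      rw [← Complex.mk_eq_add_mul_I]
      exact ⟨hx, by rw [uIcc_of_le (by linarith)]; exact ⟨hy1, hy2⟩⟩
    have h1 := Complex.imCLM.intervalIntegral_comp_comm hi
    rw [Complex.imCLM_apply] at h1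
    rw [← h1, ← Real.norm_eq_abs]
    refine (intervalIntegral.norm_integral_le_of_norm_le_const (C := Real.pi / 2) ?_).trans ?_
    · intro x hx
      rw [uIoc_of_le (by linarith)] at hx
      rw [Complex.imCLM_apply, hf, Real.norm_eq_abs]
      simp only [Complex.log_im]
      rw [Complex.abs_arg_le_pi_div_two_iff, ← Complex.mk_eq_add_mul_I]
      have := hpos ⟨x, y⟩ (by change 1 / 2 < x; linarith [hx.1]) hx.2 hy1 hy2
      linarith
    · have h2 : |2 - (1 / 2 + e)| ≤ 3 / 2 := by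
        rw [abs_le]
        constructor <;> linarith
      exact mul_le_mul_of_nonneg_left h2 (by positivity)
  have hA := hh T le_rfl (by linarith)
  have hB := hh (2 * T) (by linarith) le_rfl
  have hD := hv 2 (by linarith) le_rfl
  have hE := hv (1 / 2 + e) le_rfl (by linarith)
  rw [← hD, ← hE]
  set A := ∫ x : ℝ in (1 / 2 + e)..2, f (x + (T : ℝ) * I)
  set B := ∫ x : ℝ in (1 / 2 + e)..2, f (x + ((2 * T : ℝ) : ℂ) * I)
  set D := ∫ y : ℝ in T..(2 * T), f (((2 : ℝ) : ℂ) + y * I)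
  set E := ∫ y : ℝ in T..(2 * T), f (((1 / 2 + e : ℝ) : ℂ) + y * I)
  have h5 : E.re - D.re = A.im - B.im := by
    have := congrArg Complex.im hC
    simp only [smul_eq_mul, add_im, sub_im, mul_im, I_re, I_im, zero_im, zero_mul, one_mul,
      zero_add] at this
    linarith
  rw [h5]
  rw [abs_le] at hA hB ⊢
  constructor <;> linarith [hA.1, hA.2, hB.1, hB.2]

/-- the limit on the critical line -/
lemma limit_T {F : ℂ → ℂ} {T : ℝ} {Q : ℂ → ℂ} (hT : 2 ≤ T) (hQ : Fact F T Q)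
    (hpos : ∀ s : ℂ, 1 / 2 < s.re → s.re ≤ 2 → T ≤ s.im → s.im ≤ 2 * T →
      1 / 2 ≤ (1 + Ht F T Q s).re) :
    (∀ y : ℝ, T ≤ y → y ≤ 2 * T → (∀ ρ ∈ ZT F T, y ≠ ρ.im) →
      1 / 2 ≤ (1 + Ht F T Q ⟨1 / 2, y⟩).re) ∧
    IntervalIntegrable (fun y : ℝ => Real.log ‖1 + Ht F T Q ⟨1 / 2, y⟩‖) volume T (2 * T) ∧
    |(∫ y in T..(2 * T), Real.log ‖1 + Ht F T Q ⟨1 / 2, y⟩‖) -
      ∫ y in T..(2 * T), Real.log ‖1 + Ht F T Q ⟨2, y⟩‖| ≤ 3 * Real.pi / 2 := by
  have hTT : T ≤ 2 * T := by linarith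
  have hpath : ∀ y : ℝ, Tendsto (fun e : ℝ => (⟨1 / 2 + e, y⟩ : ℂ)) (𝓝[>] 0)
      (𝓝 (⟨1 / 2, y⟩ : ℂ)) := by
    intro y
    have h1 : Continuous fun e : ℝ => (⟨1 / 2 + e, y⟩ : ℂ) :=
      (cont_pt' y).comp (continuous_const.add continuous_id)
    have h2 := h1.tendsto 0
    rw [add_zero] at h2
    exact h2.mono_left nhdsWithin_le_nhds
  have hev : ∀ᶠ e : ℝ in 𝓝[>] 0, 0 < e ∧ e ≤ 1 := by
    have h1 : ∀ᶠ e : ℝ in 𝓝[>] (0 : ℝ), e ∈ Ioi (0 : ℝ) := self_mem_nhdsWithin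
    have h2 : ∀ᶠ e : ℝ in 𝓝[>] (0 : ℝ), e ∈ Iio (1 : ℝ) :=
      nhdsWithin_le_nhds (Iio_mem_nhds one_pos)
    filter_upwards [h1, h2] with e h3 h4
    exact ⟨h3, le_of_lt h4⟩
  have hg : ∀ y : ℝ, T ≤ y → y ≤ 2 * T → (∀ ρ ∈ ZT F T, y ≠ ρ.im) →
      Tendsto (fun e : ℝ => 1 + Ht F T Q ⟨1 / 2 + e, y⟩) (𝓝[>] 0)
        (𝓝 (1 + Ht F T Q ⟨1 / 2, y⟩)) := by
    intro y hy1 hy2 hne
    have han := an_line hQ (y := y) (by linarith) (by linarith) hne
    exact (han.continuousAt.tendsto.comp (hpath y)).const_add 1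
  have hre : ∀ y : ℝ, T ≤ y → y ≤ 2 * T → (∀ ρ ∈ ZT F T, y ≠ ρ.im) →
      1 / 2 ≤ (1 + Ht F T Q ⟨1 / 2, y⟩).re := by
    intro y hy1 hy2 hne
    have h1 := (Complex.continuous_re.tendsto _).comp (hg y hy1 hy2 hne)
    refine ge_of_tendsto h1 ?_
    filter_upwards [hev] with e he
    exact hpos _ (by change 1 / 2 < 1 / 2 + e; linarith [he.1])
      (by change 1 / 2 + e ≤ 2; linarith [he.2]) hy1 hy2
  have hnorm : ∀ z : ℂ, 1 / 2 ≤ z.re → 1 / 2 ≤ ‖z‖ := fun z hz => hz.trans (Complex.re_le_norm z)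
  obtain ⟨K, hK⟩ := log_bd hT hQ
  have hae : ∀ᵐ y : ℝ, ∀ ρ ∈ ZT F T, y ≠ ρ.im := by
    have h1 : ((ZT F T).image Complex.im : Set ℝ).Countable := (Finset.finite_toSet _).countable
    filter_upwards [h1.ae_notMem volume] with y hy ρ hρ h
    exact hy (by rw [h]; exact Finset.mem_coe.2 (Finset.mem_image_of_mem _ hρ))
  have hmeas' : ∀ e : ℝ, 0 < e ∧ e ≤ 1 → AEStronglyMeasurable
      (fun y : ℝ => Real.log ‖1 + Ht F T Q ⟨1 / 2 + e, y⟩‖)
      (volume.restrict (Ι T (2 * T))) := by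
    intro e he
    rw [uIoc_of_le hTT]
    refine ContinuousOn.aestronglyMeasurable ?_ measurableSet_Ioc
    intro y hy
    have han := an_right hQ (s := ⟨1 / 2 + e, y⟩) (by change 1 / 2 < 1 / 2 + e; linarith [he.1])
      (by change T / 2 < y; linarith [hy.1]) (by change y < 4 * T; linarith [hy.2])
    have h1 : ContinuousAt (fun y : ℝ => 1 + Ht F T Q ⟨1 / 2 + e, y⟩) y :=
      continuousAt_const.add (ContinuousAt.comp (g := Ht F T Q)
        (f := fun y : ℝ => (⟨1 / 2 + e, y⟩ : ℂ)) han.continuousAt (cont_pt _).continuousAt)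
    have h2 := hnorm _ (hpos ⟨1 / 2 + e, y⟩ (by change 1 / 2 < 1 / 2 + e; linarith [he.1])
      (by change 1 / 2 + e ≤ 2; linarith [he.2]) hy.1.le hy.2)
    exact (h1.norm.log (by linarith)).continuousWithinAt
  have hmeas : ∀ᶠ e : ℝ in 𝓝[>] 0, AEStronglyMeasurable
      (fun y : ℝ => Real.log ‖1 + Ht F T Q ⟨1 / 2 + e, y⟩‖)
      (volume.restrict (Ι T (2 * T))) := hev.mono hmeas'
  have hbound : ∀ᶠ e : ℝ in 𝓝[>] 0, ∀ᵐ y : ℝ, y ∈ Ι T (2 * T) →
      ‖Real.log ‖1 + Ht F T Q ⟨1 / 2 + e, y⟩‖‖ ≤ K + ∑ ρ ∈ ZT F T, |Real.log (y - ρ.im)| := by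
    filter_upwards [hev] with e he
    filter_upwards [hae] with y hy hyI
    rw [uIoc_of_le hTT] at hyI
    rw [Real.norm_eq_abs]
    refine hK (1 / 2 + e) y (by linarith [he.1]) (by linarith [he.2]) hyI.1.le hyI.2 hy ?_
    exact hnorm _ (hpos ⟨1 / 2 + e, y⟩ (by change 1 / 2 < 1 / 2 + e; linarith [he.1])
      (by change 1 / 2 + e ≤ 2; linarith [he.2]) hyI.1.le hyI.2)
  have hlim : ∀ᵐ y : ℝ, y ∈ Ι T (2 * T) →
      Tendsto (fun e : ℝ => Real.log ‖1 + Ht F T Q ⟨1 / 2 + e, y⟩‖) (𝓝[>] 0)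
        (𝓝 (Real.log ‖1 + Ht F T Q ⟨1 / 2, y⟩‖)) := by
    filter_upwards [hae] with y hy hyI
    rw [uIoc_of_le hTT] at hyI
    have h2 := hnorm _ (hre y hyI.1.le hyI.2 hy)
    exact (hg y hyI.1.le hyI.2 hy).norm.log (by linarith)
  have hDC := intervalIntegral.tendsto_integral_filter_of_dominated_convergence
    (fun y : ℝ => K + ∑ ρ ∈ ZT F T, |Real.log (y - ρ.im)|) hmeas hbound (bd_int F T K) hlim
  refine ⟨hre, ?_, ?_⟩
  · have hseq : Tendsto (fun n : ℕ => (1 : ℝ) / (n + 1)) atTop (𝓝[>] (0 : ℝ)) := by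
      rw [tendsto_nhdsWithin_iff]
      exact ⟨tendsto_one_div_add_atTop_nhds_zero_nat, Filter.Eventually.of_forall fun n => by
        simp only [mem_Ioi]; positivity⟩
    have hms : AEStronglyMeasurable (fun y : ℝ => Real.log ‖1 + Ht F T Q ⟨1 / 2, y⟩‖)
        (volume.restrict (Ι T (2 * T))) := by
      refine aestronglyMeasurable_of_tendsto_ae (atTop : Filter ℕ)
        (f := fun n y => Real.log ‖1 + Ht F T Q ⟨1 / 2 + 1 / ((n : ℝ) + 1), y⟩‖) ?_ ?_
      · intro n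
        refine hmeas' _ ⟨by positivity, ?_⟩
        rw [div_le_one (by positivity)]
        have : (0 : ℝ) ≤ n := n.cast_nonneg
        linarith
      · rw [ae_restrict_iff' measurableSet_uIoc]
        filter_upwards [hlim] with y hy hyI
        exact (hy hyI).comp hseq
    refine (bd_int F T K).mono_fun hms ?_
    rw [Filter.EventuallyLE, ae_restrict_iff' measurableSet_uIoc]
    filter_upwards [hae] with y hy hyI
    rw [uIoc_of_le hTT] at hyI
    rw [Real.norm_eq_abs]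
    refine le_trans ?_ (le_abs_self _)
    exact hK (1 / 2) y le_rfl (by norm_num) hyI.1.le hyI.2 hy (hnorm _ (hre y hyI.1.le hyI.2 hy))
  · refine le_of_tendsto (((hDC.sub_const _).abs)) ?_
    filter_upwards [hev] with e he
    exact cauchy_T hT hQ hpos he.1 he.2

/-- the estimate for one `T` -/
lemma one_T {F : ℂ → ℂ} (hF : GoodL F) {T : ℝ} {Q : ℂ → ℂ} (hT2 : 2 ≤ T) (hQ : Fact F T Q)
    (hpos : ∀ s : ℂ, 1 / 2 < s.re → s.re ≤ 2 → T ≤ s.im → s.im ≤ 2 * T →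
      1 / 2 ≤ (1 + Ht F T Q s).re) (hr : Continuous (rT F T)) (hr0 : ∀ t, 0 ≤ rT F T t)
    (hh : AEMeasurable (hT F T) (volume.restrict (Ioc T (2 * T)))) (η ε : ℝ)
    (hline : ∀ t : ℝ, T ≤ t → t ≤ 2 * T → F ⟨1 / 2, t⟩ ≠ 0 →
      (Ht F T Q ⟨1 / 2, t⟩).im = hT F T t ∧ |(Ht F T Q ⟨1 / 2, t⟩).re - rT F T t| ≤ η)
    (hfar : ∫ t in T..(2 * T), ‖Ht F T Q ⟨2, t⟩ - 1‖ ≤ ε * T) :
    IntervalIntegrable (fun t : ℝ =>
      Real.log ‖(1 : ℂ) + ((rT F T t : ℂ) + I * (hT F T t : ℂ))‖) volume T (2 * T) ∧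
    |(∫ t in T..(2 * T), Real.log ‖(1 : ℂ) + ((rT F T t : ℂ) + I * (hT F T t : ℂ))‖) -
      T * Real.log 2| ≤ 2 * η * T + 3 * Real.pi / 2 + 2 * ε * T := by
  have hTT : T ≤ 2 * T := by linarith
  obtain ⟨hre, hint, hlim⟩ := limit_T hT2 hQ hpos
  have hae : ∀ᵐ y : ℝ, ∀ ρ ∈ ZT F T, y ≠ ρ.im := by
    have h1 : ((ZT F T).image Complex.im : Set ℝ).Countable := (Finset.finite_toSet _).countable
    filter_upwards [h1.ae_notMem volume] with y hy ρ hρ h
    exact hy (by rw [h]; exact Finset.mem_coe.2 (Finset.mem_image_of_mem _ hρ))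
  have hdiff : ∀ᵐ y : ℝ, y ∈ Ι T (2 * T) →
      |Real.log ‖(1 : ℂ) + ((rT F T y : ℂ) + I * (hT F T y : ℂ))‖ -
        Real.log ‖1 + Ht F T Q ⟨1 / 2, y⟩‖| ≤ 2 * η := by
    filter_upwards [hae] with y hy hyI
    rw [uIoc_of_le hTT] at hyI
    have hFy : F ⟨1 / 2, y⟩ ≠ 0 := by
      intro h0
      have hmem : (⟨1 / 2, y⟩ : ℂ) ∈ ZT F T := by
        unfold ZT
        rw [mem_Zf hF (by linarith : (1 : ℝ) ≤ T / 2)]
        refine ⟨by norm_num, by norm_num, ?_, ?_, h0⟩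
        · change T / 2 < y
          linarith [hyI.1]
        · change y ≤ 4 * T
          linarith [hyI.2]
      exact hy _ hmem rfl
    obtain ⟨h1, h2⟩ := hline y hyI.1.le hyI.2 hFy
    have hn1 : 1 / 2 ≤ ‖1 + Ht F T Q ⟨1 / 2, y⟩‖ :=
      (hre y hyI.1.le hyI.2 hy).trans (Complex.re_le_norm _)
    have hn2 : 1 / 2 ≤ ‖(1 : ℂ) + ((rT F T y : ℂ) + I * (hT F T y : ℂ))‖ := by
      refine le_trans ?_ (Complex.re_le_norm _)
      simp only [add_re, one_re, ofReal_re, mul_re, I_re, ofReal_im, I_im, zero_mul, mul_zero,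
        sub_zero, add_zero]
      linarith [hr0 y]
    refine (log_lip hn2 hn1).trans ?_
    refine mul_le_mul_of_nonneg_left ?_ (by norm_num)
    refine (abs_norm_sub_norm_le _ _).trans ?_
    have h3 : (1 : ℂ) + ((rT F T y : ℂ) + I * (hT F T y : ℂ)) - (1 + Ht F T Q ⟨1 / 2, y⟩) =
        ((rT F T y - (Ht F T Q ⟨1 / 2, y⟩).re : ℝ) : ℂ) := by
      rw [← h1]
      apply Complex.ext
      · simp only [add_re, sub_re, one_re, ofReal_re, mul_re, I_re, ofReal_im, I_im, zero_mul,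
          mul_zero, sub_zero, add_zero]
        ring
      · simp only [add_im, sub_im, one_im, ofReal_re, mul_im, I_re, ofReal_im, I_im, zero_mul,
          one_mul, zero_add]
        ring
    rw [h3, Complex.norm_real, Real.norm_eq_abs, abs_sub_comm]
    exact h2
  have hmeas : AEStronglyMeasurable (fun t : ℝ =>
      Real.log ‖(1 : ℂ) + ((rT F T t : ℂ) + I * (hT F T t : ℂ))‖)
      (volume.restrict (Ι T (2 * T))) := by
    rw [uIoc_of_le hTT]
    have h1 : AEMeasurable (fun t : ℝ => ((rT F T t : ℝ) : ℂ))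
        (volume.restrict (Ioc T (2 * T))) :=
      (Complex.continuous_ofReal.comp hr).measurable.aemeasurable
    have h2 : AEMeasurable (fun t : ℝ => ((hT F T t : ℝ) : ℂ))
        (volume.restrict (Ioc T (2 * T))) :=
      Complex.continuous_ofReal.measurable.comp_aemeasurable hh
    have h3 := (aemeasurable_const (b := (1 : ℂ))).add (h1.add ((aemeasurable_const (b := I)).mul h2))
    exact (Real.measurable_log.comp_aemeasurable h3.norm).aestronglyMeasurable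
  have hint2 : IntervalIntegrable (fun t : ℝ =>
      Real.log ‖(1 : ℂ) + ((rT F T t : ℂ) + I * (hT F T t : ℂ))‖) volume T (2 * T) := by
    refine (hint.abs.add (intervalIntegrable_const (c := 2 * η))).mono_fun hmeas ?_
    rw [Filter.EventuallyLE, ae_restrict_iff' measurableSet_uIoc]
    filter_upwards [hdiff] with y hy hyI
    rw [Real.norm_eq_abs]
    refine le_trans ?_ (le_abs_self _)
    have h1 := hy hyI
    have h2 := abs_sub_abs_le_abs_sub
      (Real.log ‖(1 : ℂ) + ((rT F T y : ℂ) + I * (hT F T y : ℂ))‖)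
      (Real.log ‖1 + Ht F T Q ⟨1 / 2, y⟩‖)
    linarith
  refine ⟨hint2, ?_⟩
  -- the difference on the line
  have e1 : |(∫ t in T..(2 * T), Real.log ‖(1 : ℂ) + ((rT F T t : ℂ) + I * (hT F T t : ℂ))‖) -
      ∫ y in T..(2 * T), Real.log ‖1 + Ht F T Q ⟨1 / 2, y⟩‖| ≤ 2 * η * T := by
    rw [← intervalIntegral.integral_sub hint2 hint, ← Real.norm_eq_abs]
    refine (intervalIntegral.norm_integral_le_of_norm_le_const_ae (C := 2 * η) ?_).trans ?_
    · filter_upwards [hdiff] with y hy hyI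
      rw [Real.norm_eq_abs]
      exact hy hyI
    · rw [show 2 * T - T = T by ring, abs_of_pos (by linarith)]
  -- the line `Re s = 2`
  have hc2 : ContinuousOn (fun y : ℝ => Ht F T Q ⟨2, y⟩) (Icc T (2 * T)) := by
    intro y hy
    have han := an_right hQ (s := ⟨2, y⟩) (by norm_num)
      (by change T / 2 < y; linarith [hy.1]) (by change y < 4 * T; linarith [hy.2])
    exact (ContinuousAt.comp (g := Ht F T Q) (f := fun y : ℝ => (⟨2, y⟩ : ℂ))
      han.continuousAt (cont_pt 2).continuousAt).continuousWithinAt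
  have hn2 : ∀ y ∈ Icc T (2 * T), 1 / 2 ≤ ‖1 + Ht F T Q ⟨2, y⟩‖ := by
    intro y hy
    exact (hpos ⟨2, y⟩ (by norm_num) le_rfl hy.1 hy.2).trans (Complex.re_le_norm _)
  have hi2 : IntervalIntegrable (fun y : ℝ => Real.log ‖1 + Ht F T Q ⟨2, y⟩‖) volume T
      (2 * T) := by
    apply ContinuousOn.intervalIntegrable
    rw [uIcc_of_le hTT]
    exact ContinuousOn.log (continuousOn_const.add hc2).norm fun y hy => by
      have := hn2 y hy
      linarith
  have hi3 : IntervalIntegrable (fun y : ℝ => ‖Ht F T Q ⟨2, y⟩ - 1‖) volume T (2 * T) := by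
    apply ContinuousOn.intervalIntegrable
    rw [uIcc_of_le hTT]
    exact (hc2.sub continuousOn_const).norm
  have e2 : |(∫ y in T..(2 * T), Real.log ‖1 + Ht F T Q ⟨2, y⟩‖) - T * Real.log 2| ≤
      2 * ε * T := by
    have h1 : T * Real.log 2 = ∫ y in T..(2 * T), Real.log 2 := by
      rw [intervalIntegral.integral_const, smul_eq_mul]
      ring
    rw [h1, ← intervalIntegral.integral_sub hi2 intervalIntegrable_const]
    calc |∫ y in T..(2 * T), (Real.log ‖1 + Ht F T Q ⟨2, y⟩‖ - Real.log 2)|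
        ≤ ∫ y in T..(2 * T), |Real.log ‖1 + Ht F T Q ⟨2, y⟩‖ - Real.log 2| :=
          intervalIntegral.abs_integral_le_integral_abs hTT
      _ ≤ ∫ y in T..(2 * T), 2 * ‖Ht F T Q ⟨2, y⟩ - 1‖ := by
          refine intervalIntegral.integral_mono_on hTT
            (hi2.sub intervalIntegrable_const).abs (hi3.const_mul 2) ?_
          intro y hy
          refine (log_lip (hn2 y hy) (by norm_num)).trans ?_
          refine mul_le_mul_of_nonneg_left ?_ (by norm_num)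
          have h2 : (2 : ℝ) = ‖(2 : ℂ)‖ := by simp
          calc |‖1 + Ht F T Q ⟨2, y⟩‖ - 2| = |‖1 + Ht F T Q ⟨2, y⟩‖ - ‖(2 : ℂ)‖| := by
                rw [← h2]
            _ ≤ ‖1 + Ht F T Q ⟨2, y⟩ - 2‖ := abs_norm_sub_norm_le _ _
            _ = ‖Ht F T Q ⟨2, y⟩ - 1‖ := by
                congr 1
                ring
      _ = 2 * ∫ y in T..(2 * T), ‖Ht F T Q ⟨2, y⟩ - 1‖ := intervalIntegral.integral_const_mul _ _
      _ ≤ 2 * ε * T := by linarith
  rw [abs_le] at e1 e2 hlim ⊢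
  constructor <;> linarith [e1.1, e1.2, e2.1, e2.2, hlim.1, hlim.2]

theorem h_LOGLAW : S_FACT → S_LINE → S_POS2 → S_FAR → S_MEAS → S_LOGLAW := by
  intro hFACT hLINE hPOS hFAR hMEAS F hF hFew
  obtain ⟨C1, T1, hC1, hpos⟩ := hPOS F hF
  obtain ⟨C2, T2, hC2, hline⟩ := hLINE F hF
  obtain ⟨hm1, hm2, hm3⟩ := hMEAS F hF
  have hlogtop : Tendsto (fun T : ℝ => Real.log T) atTop atTop := Real.tendsto_log_atTop
  have key : ∀ ε : ℝ, 0 < ε → ∀ᶠ T : ℝ in atTop,
      IntervalIntegrable (fun t : ℝ =>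
        Real.log ‖(1 : ℂ) + ((rT F T t : ℂ) + I * (hT F T t : ℂ))‖) volume T (2 * T) ∧
      |(∫ t in T..(2 * T), Real.log ‖(1 : ℂ) + ((rT F T t : ℂ) + I * (hT F T t : ℂ))‖) -
        T * Real.log 2| ≤ 2 * (C2 / Real.log T) * T + 3 * Real.pi / 2 + 2 * ε * T := by
    intro ε hε
    obtain ⟨T3, hfar⟩ := hFAR F hF hFew ε hε
    filter_upwards [eventually_ge_atTop T1, eventually_ge_atTop T2, eventually_ge_atTop T3,
      eventually_ge_atTop (4 : ℝ), hlogtop.eventually_ge_atTop (2 * C1)] with T h1 h2 h3 h4 h5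
    obtain ⟨Q, hQ⟩ := hFACT F hF T h4
    have hL : 0 < Real.log T := by linarith
    have hC : C1 / Real.log T ≤ 1 / 2 := by
      rw [div_le_iff₀ hL]
      linarith
    refine one_T hF (by linarith) hQ ?_ (hm1 T) (fun t => hm2 T t (by linarith))
      (hm3 T (by linarith)) (C2 / Real.log T) ε ?_ (hfar T h3 Q hQ)
    · intro s hs1 hs2 hs3 hs4
      have := hpos T h1 Q hQ s hs1 (by linarith) (by linarith) (by linarith)
      rw [add_re, one_re]
      linarith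
    · intro t ht1 ht2 ht3
      exact hline T h2 Q hQ t (by linarith) (by linarith) ht3
  refine ⟨(key 1 one_pos).mono fun T h => h.1, ?_⟩
  rw [Metric.tendsto_nhds]
  intro ε hε
  filter_upwards [key (ε / 8) (by positivity), hlogtop.eventually_ge_atTop (8 * C2 / ε),
    eventually_gt_atTop (6 * Real.pi / ε), eventually_gt_atTop (1 : ℝ)] with T h1 h2 h3 h4
  have hL : 0 < Real.log T := Real.log_pos h4
  have hT0 : 0 < T := by linarith
  rw [Real.dist_eq]
  have e1 : (1 / T) * (∫ t in T..(2 * T),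
      Real.log ‖(1 : ℂ) + ((rT F T t : ℂ) + I * (hT F T t : ℂ))‖) - Real.log 2 =
      ((∫ t in T..(2 * T),
        Real.log ‖(1 : ℂ) + ((rT F T t : ℂ) + I * (hT F T t : ℂ))‖) - T * Real.log 2) / T := by
    field_simp
  rw [e1, abs_div, abs_of_pos hT0, div_lt_iff₀ hT0]
  refine h1.2.trans_lt ?_
  have e2 : C2 / Real.log T ≤ ε / 8 := by
    rw [div_le_iff₀ hL]
    rw [div_le_iff₀ hε] at h2
    linarith
  have e3 : 3 * Real.pi / 2 < ε / 4 * T := by
    rw [div_lt_iff₀ hε] at h3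
    linarith
  have e4 : 2 * (C2 / Real.log T) * T ≤ ε / 4 * T := by
    refine mul_le_mul_of_nonneg_right ?_ hT0.le
    linarith
  have e5 : 0 < ε * T := by positivity
  linarith

end

end Pool.Agent.H21.CL
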