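import Pool.Agent.H444.CL.Stm

set_option autoImplicit false

/-! Project CL of helper444: `S_POS` from `S_LB`, `S_MAXP`, `S_LINE` (helper21). -/

namespace Pool.Agent.H21.CL

open Filter Topology MeasureTheory Complex Set
open scoped ComplexConjugate
open H370 Pool.Agent.H444.CL

noncomputable section

lemma st_re (ρ : ℂ) : (st ρ).re ≤ 1 / 2 := by
  unfold st
  split_ifs with h
  · simp only [sub_re, one_re, conj_re]
    linarith
  · exact not_lt.1 h

lemma Ht_eq (F : ℂ → ℂ) (T : ℝ) (Q : ℂ → ℂ) (s : ℂ) :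
    Ht F T Q s = ∑ a ∈ ZT F T, (((2 / Real.log T * (mult F a : ℝ) : ℝ)) : ℂ) / (s - st a) +
      (1 + ((2 / Real.log T : ℝ) : ℂ) * Q s) := by
  unfold Ht Kt
  have h : ∑ a ∈ ZT F T, (((2 / Real.log T * (mult F a : ℝ) : ℝ)) : ℂ) / (s - st a) =
      ((2 / Real.log T : ℝ) : ℂ) * ∑ a ∈ ZT F T, (mult F a : ℂ) / (s - st a) := by
    rw [Finset.mul_sum]
    refine Finset.sum_congr rfl fun a _ => ?_
    push_cast
    ring
  rw [h]
  ring

/-- the effect of the reflection of one zero far to the right -/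
lemma diff_bound {ρ s : ℂ} (h0 : 0 < ρ.re) (h1 : ρ.re < 1) {S : ℝ} (hS : 0 < S)
    (hs : 1 + S ≤ s.re) : ‖1 / (s - st ρ) - 1 / (s - ρ)‖ ≤ 1 / S ^ 2 := by
  have e1 : S ≤ ‖s - ρ‖ := by
    refine le_trans ?_ (Complex.re_le_norm _)
    rw [sub_re]
    linarith
  have e2 : S ≤ ‖s - st ρ‖ := by
    refine le_trans ?_ (Complex.re_le_norm _)
    rw [sub_re]
    linarith [st_re ρ]
  have n1 : s - ρ ≠ 0 := norm_pos_iff.1 (hS.trans_le e1)
  have n2 : s - st ρ ≠ 0 := norm_pos_iff.1 (hS.trans_le e2)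
  have e3 : ‖st ρ - ρ‖ ≤ 1 := by
    unfold st
    split_ifs with h
    · have : (1 - conj ρ - ρ : ℂ) = ((1 - 2 * ρ.re : ℝ) : ℂ) := by
        apply Complex.ext
        · simp only [sub_re, one_re, conj_re, ofReal_re]
          ring
        · simp only [sub_im, one_im, conj_im, ofReal_im]
          ring
      rw [this, Complex.norm_real, Real.norm_eq_abs, abs_le]
      constructor <;> linarith
    · rw [sub_self, norm_zero]
      exact zero_le_one
  have e4 : 1 / (s - st ρ) - 1 / (s - ρ) = (st ρ - ρ) / ((s - st ρ) * (s - ρ)) := by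
    field_simp
    ring
  rw [e4, norm_div, norm_mul, div_le_div_iff₀ (by positivity) (by positivity), sq]
  have e5 : S * S ≤ ‖s - st ρ‖ * ‖s - ρ‖ := mul_le_mul e2 e1 hS.le (norm_nonneg _)
  calc ‖st ρ - ρ‖ * (S * S) ≤ 1 * (S * S) := mul_le_mul_of_nonneg_right e3 (by positivity)
    _ = S * S := one_mul _
    _ ≤ ‖s - st ρ‖ * ‖s - ρ‖ := e5
    _ = 1 * (‖s - st ρ‖ * ‖s - ρ‖) := (one_mul _).symm

/-- crude count of the zeros -/
lemma NN_ZT {F : ℂ → ℂ} (hF : GoodL F) : ∃ C : ℝ, 0 < C ∧ ∀ T : ℝ, 8 ≤ T →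
    (∑ ρ ∈ ZT F T, (mult F ρ : ℝ)) ≤ C * (T * Real.log T) := by
  obtain ⟨C, hC, h⟩ := NN_crude hF
  refine ⟨6 * C, by positivity, fun T hT => ?_⟩
  have hT2 : 1 ≤ T / 2 := by linarith
  have e0 : (∑ ρ ∈ ZT F T, (mult F ρ : ℝ)) = (NN F (T / 2) (4 * T) : ℝ) := by
    rw [NN_eq hF hT2]
    push_cast
    rfl
  have e1 : NN F (T / 2) (4 * T) = NN F (T / 2) T + (NN F T (2 * T) + NN F (2 * T) (4 * T)) := by
    rw [NN_add hF hT2 (b := T) (by linarith) (by linarith),
      NN_add hF (a := T) (b := 2 * T) (c := 4 * T) (by linarith) (by linarith) (by linarith)]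
  have h1 := h (T / 2) (by linarith) (T / 2) T le_rfl (by linarith)
  have h2 := h T (by linarith) T (2 * T) le_rfl le_rfl
  have h3 := h (2 * T) (by linarith) (2 * T) (4 * T) le_rfl (by linarith)
  have l1 : Real.log (T / 2) ≤ Real.log T := Real.log_le_log (by linarith) (by linarith)
  have l2 : Real.log (2 * T) ≤ 2 * Real.log T := by
    have : Real.log (T ^ 2) = 2 * Real.log T := by
      rw [Real.log_pow]; norm_num
    rw [← this]
    apply Real.log_le_log (by linarith)
    nlinarith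
  have l0 : 0 ≤ Real.log T := Real.log_nonneg (by linarith)
  rw [e0, e1]
  push_cast
  have g1 : C * (T / 2 * Real.log (T / 2)) ≤ C * (T * Real.log T) := by
    refine mul_le_mul_of_nonneg_left ?_ hC.le
    have : T / 2 * Real.log (T / 2) ≤ T / 2 * Real.log T :=
      mul_le_mul_of_nonneg_left l1 (by linarith)
    nlinarith
  have g3 : C * (2 * T * Real.log (2 * T)) ≤ 4 * C * (T * Real.log T) := by
    have : 2 * T * Real.log (2 * T) ≤ 2 * T * (2 * Real.log T) :=
      mul_le_mul_of_nonneg_left l2 (by linarith)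
    have := mul_le_mul_of_nonneg_left this hC.le
    linarith
  linarith

/-- positivity far to the right -/
lemma far_right {F : ℂ → ℂ} (hF : GoodL F) : ∃ κ T0 : ℝ, 1 ≤ κ ∧ ∀ T : ℝ, T0 ≤ T →
    ∀ Q : ℂ → ℂ, Fact F T Q → ∀ s : ℂ, s.re = 1 + Real.sqrt (κ * T) → T / 2 < s.im →
    s.im < 4 * T → 0 ≤ (Ht F T Q s).re := by
  obtain ⟨K, hK, hKb⟩ := right_bound hF 2 (by norm_num)
  obtain ⟨C, hC, hcount⟩ := NN_ZT hF
  refine ⟨max (4 * C) 1, max 8 (Real.exp (4 * K + 1)), le_max_right _ _, ?_⟩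
  intro T hT Q hQ s hs1 hs2 hs3
  set κ := max (4 * C) 1 with hκ
  have hκ1 : 1 ≤ κ := le_max_right _ _
  have hκ4 : 4 * C ≤ κ := le_max_left _ _
  have hT8 : 8 ≤ T := (le_max_left _ _).trans hT
  have hLK : 4 * K + 1 ≤ Real.log T := by
    rw [Real.le_log_iff_exp_le (by linarith)]
    exact (le_max_right _ _).trans hT
  have hL : 0 < Real.log T := by linarith
  set S := Real.sqrt (κ * T) with hS
  have hSsq : S ^ 2 = κ * T := Real.sq_sqrt (by positivity)
  have hS1 : 1 ≤ S := by
    rw [hS]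
    exact Real.one_le_sqrt.2 (by nlinarith)
  have hS0 : 0 < S := by linarith
  have hFs : F s ≠ 0 := hF.nzr s (by linarith) (by linarith)
  have hsplit := hQ.2 s (by linarith) hs2 hs3 hFs
  have hKt : Kt F T Q s = deriv F s / F s +
      ∑ ρ ∈ ZT F T, (mult F ρ : ℂ) * (1 / (s - st ρ) - 1 / (s - ρ)) := by
    rw [hsplit, Kt]
    have : ∑ ρ ∈ ZT F T, (mult F ρ : ℂ) * (1 / (s - st ρ) - 1 / (s - ρ)) =
        ∑ ρ ∈ ZT F T, (mult F ρ : ℂ) / (s - st ρ) - ∑ ρ ∈ ZT F T, (mult F ρ : ℂ) / (s - ρ) := by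
      rw [← Finset.sum_sub_distrib]
      refine Finset.sum_congr rfl fun a _ => ?_
      ring
    rw [this]
    ring
  have hnorm : ‖Kt F T Q s‖ ≤ K + C * (T * Real.log T) / S ^ 2 := by
    rw [hKt]
    refine (norm_add_le _ _).trans (add_le_add (hKb s (by linarith) (by linarith)) ?_)
    refine (norm_sum_le _ _).trans ?_
    calc ∑ ρ ∈ ZT F T, ‖(mult F ρ : ℂ) * (1 / (s - st ρ) - 1 / (s - ρ))‖
        ≤ ∑ ρ ∈ ZT F T, (mult F ρ : ℝ) * (1 / S ^ 2) := by
          refine Finset.sum_le_sum fun ρ hρ => ?_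
          have hρ' := (mem_Zf hF (by linarith : (1 : ℝ) ≤ T / 2)).1 hρ
          rw [norm_mul, Complex.norm_natCast]
          exact mul_le_mul_of_nonneg_left (diff_bound hρ'.1 hρ'.2.1 hS0 hs1.ge) (by positivity)
      _ = (∑ ρ ∈ ZT F T, (mult F ρ : ℝ)) * (1 / S ^ 2) := (Finset.sum_mul _ _ _).symm
      _ ≤ C * (T * Real.log T) * (1 / S ^ 2) :=
          mul_le_mul_of_nonneg_right (hcount T hT8) (by positivity)
      _ = C * (T * Real.log T) / S ^ 2 := by ring
  have h1 : C * (T * Real.log T) / S ^ 2 ≤ Real.log T / 4 := by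
    rw [hSsq, div_le_div_iff₀ (by positivity) (by norm_num)]
    have : 4 * C * (T * Real.log T) ≤ κ * (T * Real.log T) :=
      mul_le_mul_of_nonneg_right hκ4 (by positivity)
    linarith
  have h2 : ‖Kt F T Q s‖ ≤ Real.log T / 2 := by linarith
  have h3 : -(Real.log T / 2) ≤ (Kt F T Q s).re := by
    have := (abs_le.1 (Complex.abs_re_le_norm (Kt F T Q s))).1
    linarith
  have h4 : (Ht F T Q s).re = 1 + 2 / Real.log T * (Kt F T Q s).re := by
    unfold Ht
    rw [add_re, one_re, re_ofReal_mul]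
  rw [h4]
  have h5 : 2 / Real.log T * (-(Real.log T / 2)) ≤ 2 / Real.log T * (Kt F T Q s).re :=
    mul_le_mul_of_nonneg_left h3 (by positivity)
  have h6 : 2 / Real.log T * (-(Real.log T / 2)) = -1 := by
    field_simp
  linarith

lemma cosh_lower (x : ℝ) (hx : 0 ≤ x) : x ^ 2 / 2 ≤ Real.cosh x := by
  have h1 : Real.cosh x = 2 * Real.sinh (x / 2) ^ 2 + 1 := by
    have := Real.cosh_two_mul (x / 2)
    rw [Real.cosh_sq] at this
    rw [show x = 2 * (x / 2) by ring, this]
    ring_nf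
  have h2 : x / 2 ≤ Real.sinh (x / 2) := Real.self_le_sinh_iff.2 (by linarith)
  rw [h1]
  nlinarith

theorem h_POS : S_LB → S_MAXP → S_LINE → S_POS := by
  intro hLB hMAXP hLINE F hF
  obtain ⟨C1, T1, hC1, hlb⟩ := hLB F hF
  obtain ⟨C2, T2, hC2, hline⟩ := hLINE F hF
  obtain ⟨κ, T3, hκ, hfar⟩ := far_right hF
  refine ⟨C2 + 512 * κ * C1, max (max T1 T2) (max T3 8), by positivity, ?_⟩
  intro T hT Q hQ s hs1 hs2 hs3 hs4
  have hT1 : T1 ≤ T := (le_max_left _ _).trans ((le_max_left _ _).trans hT)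
  have hT2 : T2 ≤ T := (le_max_right _ _).trans ((le_max_left _ _).trans hT)
  have hT3 : T3 ≤ T := (le_max_left _ _).trans ((le_max_right _ _).trans hT)
  have hT8 : 8 ≤ T := (le_max_right _ _).trans ((le_max_right _ _).trans hT)
  have hL : 0 < Real.log T := Real.log_pos (by linarith)
  have hLT : Real.log T ≤ T := (Real.log_le_sub_one_of_pos (by linarith)).trans (by linarith)
  set R := Real.sqrt (κ * T) with hR
  have hRsq : R ^ 2 = κ * T := Real.sq_sqrt (by positivity)
  have hR1 : 1 ≤ R := by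
    rw [hR]
    exact Real.one_le_sqrt.2 (by nlinarith)
  have key := hMAXP (ZT F T) st (fun a => 2 / Real.log T * (mult F a : ℝ))
    (fun z => 1 + ((2 / Real.log T : ℝ) : ℂ) * Q z) (1 + R) s.im (T / 4) (C2 / Real.log T)
    (2 * C1) (by linarith) (by linarith) (by positivity) (by positivity)
    (fun a _ => ⟨st_re a, by positivity⟩)
    (by
      intro z hz1 hz2 hz3
      rw [abs_le] at hz3
      exact analyticAt_const.add (analyticAt_const.mul
        (hQ.1 z (by linarith) (by linarith) (by linarith))))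
    (by
      intro y hy hne
      rw [abs_le] at hy
      have hFy : F ⟨1 / 2, y⟩ ≠ 0 := by
        intro h0
        have hmem : (⟨1 / 2, y⟩ : ℂ) ∈ ZT F T := by
          unfold ZT
          rw [mem_Zf hF (by linarith : (1 : ℝ) ≤ T / 2)]
          refine ⟨by norm_num, by norm_num, ?_, ?_, h0⟩
          · change T / 2 < y
            linarith
          · change y ≤ 4 * T
            linarith
        apply hne _ hmem
        unfold st
        rw [if_neg (lt_irrefl _)]
      rw [← Ht_eq]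
      have h1 := (hline T hT2 Q hQ y (by linarith) (by linarith) hFy).2
      have h2 : 0 ≤ rT F T y := by
        unfold rT
        refine mul_nonneg (by positivity) (Finset.sum_nonneg fun ρ hρ => ?_)
        unfold RT at hρ
        rw [Finset.mem_filter] at hρ
        have h3 : 0 ≤ ρ.re - 1 / 2 := by linarith [hρ.2]
        exact mul_nonneg (by positivity) (div_nonneg h3 (by positivity))
      have := (abs_le.1 h1).1
      linarith)
    (by
      intro y hy
      rw [abs_le] at hy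
      rw [← Ht_eq]
      have h1 := hfar T hT3 Q hQ ⟨1 + R, y⟩ rfl (by change T / 2 < y; linarith)
        (by change y < 4 * T; linarith)
      have h2 : 0 ≤ C2 / Real.log T := by positivity
      linarith)
    (by
      intro z hz1 hz2 hz3
      rw [abs_le] at hz3
      rw [← Ht_eq]
      have h1 := hlb T hT1 Q hQ z hz1 (by linarith) (by linarith)
      have h4 : (Ht F T Q z).re = 1 + 2 / Real.log T * (Kt F T Q z).re := by
        unfold Ht
        rw [add_re, one_re, re_ofReal_mul]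
      rw [h4]
      have h5 : 2 / Real.log T * (-(C1 * Real.log T)) ≤ 2 / Real.log T * (Kt F T Q z).re :=
        mul_le_mul_of_nonneg_left h1 (by positivity)
      have h6 : 2 / Real.log T * (-(C1 * Real.log T)) = -(2 * C1) := by
        field_simp
      linarith)
    s.re hs1 (by linarith)
  rw [← Ht_eq] at key
  have hs : (⟨s.re, s.im⟩ : ℂ) = s := rfl
  rw [hs] at key
  refine le_trans (neg_le_neg ?_) key
  have h1 : 0 ≤ T / 4 / (1 + R) := by positivity
  have h2 := cosh_lower _ h1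
  have h3 : T / (128 * κ) ≤ Real.cosh (T / 4 / (1 + R)) := by
    refine le_trans ?_ h2
    rw [div_pow, div_pow, div_div, div_div, div_le_div_iff₀ (by positivity) (by positivity)]
    have h4 : (1 + R) ^ 2 ≤ 4 * (κ * T) := by
      rw [← hRsq]
      nlinarith
    calc T * (4 ^ 2 * ((1 + R) ^ 2 * 2)) ≤ T * (4 ^ 2 * (4 * (κ * T) * 2)) := by gcongr
      _ = T ^ 2 * (128 * κ) := by ring
  have h5 : 2 * (2 * C1) / Real.cosh (T / 4 / (1 + R)) ≤ 512 * κ * C1 / Real.log T := by
    have hpos : 0 < T / (128 * κ) := by positivity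
    calc 2 * (2 * C1) / Real.cosh (T / 4 / (1 + R)) ≤ 2 * (2 * C1) / (T / (128 * κ)) :=
          div_le_div_of_nonneg_left (by positivity) hpos h3
      _ = 512 * κ * C1 / T := by
          field_simp
          ring
      _ ≤ 512 * κ * C1 / Real.log T := div_le_div_of_nonneg_left (by positivity) hL hLT
  rw [add_div]
  linarith

end

end Pool.Agent.H21.CL
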