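import Pool.Agent.H21.CL.POS

set_option autoImplicit false

/-! Project CL of helper444: `S_POS2` from `S_LB`, `S_MAXP`, `S_LINE` (helper21). -/

namespace Pool.Agent.H21.CL

open Filter Topology MeasureTheory Complex Set
open scoped ComplexConjugate
open H370 Pool.Agent.H444.CL

noncomputable section

theorem h_POS2 : S_LB → S_MAXP → S_LINE → S_POS2 := by
  intro hLB hMAXP hLINE F hF
  obtain ⟨C1, T1, hC1, hlb⟩ := hLB F hF
  obtain ⟨C2, T2, hC2, hline⟩ := hLINE F hF
  obtain ⟨κ, T3, hκ, hfar⟩ := far_right hF
  refine ⟨C2 + 2048 * κ * C1, max (max T1 T2) (max T3 9), by positivity, ?_⟩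
  intro T hT Q hQ s hs1 hs2 hs3 hs4
  have hT1 : T1 ≤ T := (le_max_left _ _).trans ((le_max_left _ _).trans hT)
  have hT2 : T2 ≤ T := (le_max_right _ _).trans ((le_max_left _ _).trans hT)
  have hT3 : T3 ≤ T := (le_max_left _ _).trans ((le_max_right _ _).trans hT)
  have hT8 : 9 ≤ T := (le_max_right _ _).trans ((le_max_right _ _).trans hT)
  have hL : 0 < Real.log T := Real.log_pos (by linarith)
  have hLT : Real.log T ≤ T := (Real.log_le_sub_one_of_pos (by linarith)).trans (by linarith)
  set R := Real.sqrt (κ * T) with hR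
  have hRsq : R ^ 2 = κ * T := Real.sq_sqrt (by positivity)
  have hR1 : 3 ≤ R := by
    rw [hR]
    exact Real.le_sqrt_of_sq_le (by nlinarith)
  have key := hMAXP (ZT F T) st (fun a => 2 / Real.log T * (mult F a : ℝ))
    (fun z => 1 + ((2 / Real.log T : ℝ) : ℂ) * Q z) (1 + R) s.im (T / 8) (C2 / Real.log T)
    (2 * C1) (by linarith) (by linarith) (by positivity) (by positivity)
    (fun a _ => ⟨st_re a, by positivity⟩)
    (by
      intro z hz1 hz2 hz3
      rw [abs_le] at hz3
      exact analyticAt_const.add (analyticAt_const.mul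
        (hQ.1 z (by linarith) (by linarith) (by linarith))))
    (by
      intro y hy hne
      rw [abs_le] at hy
      have hFy : F ⟨1 / 2, y⟩ ≠ 0 := by
        intro h0
        have hmem : (⟨1 / 2, y⟩ : ℂ) ∈ ZT F T := by
          unfold ZT
          rw [mem_Zf hF (by linarith : (1 : ℝ) ≤ T / 2)]
          refine ⟨by norm_num, by norm_num, ?_, ?_, h0⟩
          · change T / 2 < y
            linarith
          · change y ≤ 4 * T
            linarith
        apply hne _ hmem
        unfold st
        rw [if_neg (lt_irrefl _)]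
      rw [← Ht_eq]
      have h1 := (hline T hT2 Q hQ y (by linarith) (by linarith) hFy).2
      have h2 : 0 ≤ rT F T y := by
        unfold rT
        refine mul_nonneg (by positivity) (Finset.sum_nonneg fun ρ hρ => ?_)
        unfold RT at hρ
        rw [Finset.mem_filter] at hρ
        have h3 : 0 ≤ ρ.re - 1 / 2 := by linarith [hρ.2]
        exact mul_nonneg (by positivity) (div_nonneg h3 (by positivity))
      have := (abs_le.1 h1).1
      linarith)
    (by
      intro y hy
      rw [abs_le] at hy
      rw [← Ht_eq]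
      have h1 := hfar T hT3 Q hQ ⟨1 + R, y⟩ rfl (by change T / 2 < y; linarith)
        (by change y < 4 * T; linarith)
      have h2 : 0 ≤ C2 / Real.log T := by positivity
      linarith)
    (by
      intro z hz1 hz2 hz3
      rw [abs_le] at hz3
      rw [← Ht_eq]
      have h1 := hlb T hT1 Q hQ z hz1 (by linarith) (by linarith)
      have h4 : (Ht F T Q z).re = 1 + 2 / Real.log T * (Kt F T Q z).re := by
        unfold Ht
        rw [add_re, one_re, re_ofReal_mul]
      rw [h4]
      have h5 : 2 / Real.log T * (-(C1 * Real.log T)) ≤ 2 / Real.log T * (Kt F T Q z).re :=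
        mul_le_mul_of_nonneg_left h1 (by positivity)
      have h6 : 2 / Real.log T * (-(C1 * Real.log T)) = -(2 * C1) := by
        field_simp
      linarith)
    s.re hs1 (by linarith)
  rw [← Ht_eq] at key
  have hs : (⟨s.re, s.im⟩ : ℂ) = s := rfl
  rw [hs] at key
  refine le_trans (neg_le_neg ?_) key
  have h1 : 0 ≤ T / 8 / (1 + R) := by positivity
  have h2 := cosh_lower _ h1
  have h3 : T / (512 * κ) ≤ Real.cosh (T / 8 / (1 + R)) := by
    refine le_trans ?_ h2
    rw [div_pow, div_pow, div_div, div_div, div_le_div_iff₀ (by positivity) (by positivity)]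
    have h4 : (1 + R) ^ 2 ≤ 4 * (κ * T) := by
      rw [← hRsq]
      nlinarith
    calc T * (8 ^ 2 * ((1 + R) ^ 2 * 2)) ≤ T * (8 ^ 2 * (4 * (κ * T) * 2)) := by gcongr
      _ = T ^ 2 * (512 * κ) := by ring
  have h5 : 2 * (2 * C1) / Real.cosh (T / 8 / (1 + R)) ≤ 2048 * κ * C1 / Real.log T := by
    have hpos : 0 < T / (512 * κ) := by positivity
    calc 2 * (2 * C1) / Real.cosh (T / 8 / (1 + R)) ≤ 2 * (2 * C1) / (T / (512 * κ)) :=
          div_le_div_of_nonneg_left (by positivity) hpos h3
      _ = 2048 * κ * C1 / T := by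
          field_simp
          ring
      _ ≤ 2048 * κ * C1 / Real.log T := div_le_div_of_nonneg_left (by positivity) hL hLT
  rw [add_div]
  linarith

end

end Pool.Agent.H21.CL
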